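import Mathlib
import Pool.Agent.Y734.I.StmsB

/-!
# Job GENS: six lines which are not tangent to a conic satisfy the genericity conditions
-/

set_option autoImplicit false
set_option linter.all false

namespace Pool.Agent.Y734.I.GENS

open Pool.Agent.Y734.I
open MvPolynomial

/-- the determinant -/
def dt (a b c : Fin 3 → ℚ) : ℚ :=
  a 0 * (b 1 * c 2 - b 2 * c 1) + a 1 * (b 2 * c 0 - b 0 * c 2) + a 2 * (b 0 * c 1 - b 1 * c 0)

theorem dt_ne {a b c : Fin 3 → ℚ} (h : LinearIndependent ℚ ![a, b, c]) : dt a b c ≠ 0 := by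
  have h1 : IsUnit (Matrix.of ![a, b, c]) :=
    (Matrix.linearIndependent_rows_iff_isUnit (A := Matrix.of ![a, b, c])).1 h
  rw [Matrix.isUnit_iff_isUnit_det, Matrix.det_fin_three] at h1
  have h2 := h1.ne_zero
  simp only [Matrix.of_apply, Matrix.cons_val_zero, Matrix.cons_val_one, Matrix.cons_val] at h2
  unfold dt
  intro h0
  apply h2
  linear_combination h0

section

variable {κ : Type} [Field κ] [Algebra ℚ κ]

theorem ev3 (a : Fin 3 → ℚ) (x : Fin 3 → κ) : ev (N := 2) a x =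
    algebraMap ℚ κ (a 0) * x 0 + algebraMap ℚ κ (a 1) * x 1 + algebraMap ℚ κ (a 2) * x 2 := by
  unfold ev
  rw [Fin.sum_univ_three]

theorem zero3 {a b c : Fin 3 → ℚ} (h : dt a b c ≠ 0) {x : Fin 3 → κ}
    (ha : ev (N := 2) a x = 0) (hb : ev (N := 2) b x = 0) (hc : ev (N := 2) c x = 0) : x = 0 := by
  rw [ev3] at ha hb hc
  have hd : algebraMap ℚ κ (dt a b c) ≠ 0 := (map_ne_zero _).2 h
  unfold dt at hd
  simp only [map_add, map_mul, map_sub] at hd
  set A := fun j => algebraMap ℚ κ (a j)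
  set B := fun j => algebraMap ℚ κ (b j)
  set C := fun j => algebraMap ℚ κ (c j)
  have e : ∀ j, x j = 0 := by
    intro j
    apply (mul_eq_zero.1 (?_ : _ * x j = 0)).resolve_left hd
    fin_cases j
    · simp only [Fin.zero_eta, Fin.isValue]
      linear_combination (algebraMap ℚ κ (b 1) * algebraMap ℚ κ (c 2) - algebraMap ℚ κ (b 2) * algebraMap ℚ κ (c 1)) * ha +
        (algebraMap ℚ κ (c 1) * algebraMap ℚ κ (a 2) - algebraMap ℚ κ (c 2) * algebraMap ℚ κ (a 1)) * hb +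
        (algebraMap ℚ κ (a 1) * algebraMap ℚ κ (b 2) - algebraMap ℚ κ (a 2) * algebraMap ℚ κ (b 1)) * hc
    · simp only [Fin.mk_one, Fin.isValue]
      linear_combination (algebraMap ℚ κ (b 2) * algebraMap ℚ κ (c 0) - algebraMap ℚ κ (b 0) * algebraMap ℚ κ (c 2)) * ha +
        (algebraMap ℚ κ (c 2) * algebraMap ℚ κ (a 0) - algebraMap ℚ κ (c 0) * algebraMap ℚ κ (a 2)) * hb +
        (algebraMap ℚ κ (a 2) * algebraMap ℚ κ (b 0) - algebraMap ℚ κ (a 0) * algebraMap ℚ κ (b 2)) * hc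
    · simp only [Fin.reduceFinMk, Fin.isValue]
      linear_combination (algebraMap ℚ κ (b 0) * algebraMap ℚ κ (c 1) - algebraMap ℚ κ (b 1) * algebraMap ℚ κ (c 0)) * ha +
        (algebraMap ℚ κ (c 0) * algebraMap ℚ κ (a 1) - algebraMap ℚ κ (c 1) * algebraMap ℚ κ (a 0)) * hb +
        (algebraMap ℚ κ (a 0) * algebraMap ℚ κ (b 1) - algebraMap ℚ κ (a 1) * algebraMap ℚ κ (b 0)) * hc
  exact funext e

/-- The values at a point of two lines. -/
theorem prop3 {a b : Fin 3 → ℚ} {x : Fin 3 → κ} (ha : ev (N := 2) a x = 0)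
    (hb : ev (N := 2) b x = 0) (h h' : Fin 3 → ℚ) :
    algebraMap ℚ κ (dt h a b) * ev (N := 2) h' x =
      algebraMap ℚ κ (dt h' a b) * ev (N := 2) h x := by
  rw [ev3] at ha hb ⊢
  rw [ev3]
  have e1 : algebraMap ℚ κ (dt h h' b) * (algebraMap ℚ κ (a 0) * x 0 +
      algebraMap ℚ κ (a 1) * x 1 + algebraMap ℚ κ (a 2) * x 2) = 0 := by rw [ha, mul_zero]
  have e2 : algebraMap ℚ κ (dt h a h') * (algebraMap ℚ κ (b 0) * x 0 +
      algebraMap ℚ κ (b 1) * x 1 + algebraMap ℚ κ (b 2) * x 2) = 0 := by rw [hb, mul_zero]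
  unfold dt at e1 e2 ⊢
  simp only [map_add, map_mul, map_sub] at e1 e2 ⊢
  linear_combination e1 + e2

end

section sym

/-- the coordinates of a symmetric matrix -/
def L6 : (Fin 3 × Fin 3 → ℚ) →ₗ[ℚ] (Fin 6 → ℚ) where
  toFun M := ![M (0, 0), M (1, 1), M (2, 2), M (0, 1), M (0, 2), M (1, 2)]
  map_add' M M' := by
    ext i
    fin_cases i <;> rfl
  map_smul' c M := by
    ext i
    fin_cases i <;> rfl

/-- symmetric matrices -/
def Sy (M : Fin 3 × Fin 3 → ℚ) : Prop := ∀ j k, M (j, k) = M (k, j)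

theorem L6_inj {M : Fin 3 × Fin 3 → ℚ} (hM : Sy M) (h : L6 M = 0) : M = 0 := by
  have h0 : M (0, 0) = 0 := congrFun h 0
  have h1 : M (1, 1) = 0 := congrFun h 1
  have h2 : M (2, 2) = 0 := congrFun h 2
  have h3 : M (0, 1) = 0 := congrFun h 3
  have h4 : M (0, 2) = 0 := congrFun h 4
  have h5 : M (1, 2) = 0 := congrFun h 5
  have h6 : M (1, 0) = 0 := by rw [hM, h3]
  have h7 : M (2, 0) = 0 := by rw [hM, h4]
  have h8 : M (2, 1) = 0 := by rw [hM, h5]
  funext ⟨j, k⟩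
  fin_cases j <;> fin_cases k <;> assumption

theorem sy_sum {v : Fin 6 → Fin 3 × Fin 3 → ℚ} (hv : ∀ i, Sy (v i)) (c : Fin 6 → ℚ) :
    Sy (∑ i, c i • v i) := by
  intro j k
  simp only [Finset.sum_apply, Pi.smul_apply]
  exact Finset.sum_congr rfl fun i _ => by rw [hv i]

theorem span6 {v : Fin 6 → Fin 3 × Fin 3 → ℚ} (hv : ∀ i, Sy (v i)) (h : LinearIndependent ℚ v)
    {w : Fin 3 × Fin 3 → ℚ} (hw : Sy w) : ∃ c : Fin 6 → ℚ, w = ∑ i, c i • v i := by
  have h1 : LinearIndependent ℚ (fun i => L6 (v i)) := by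
    rw [Fintype.linearIndependent_iff] at h ⊢
    intro c hc
    apply h
    apply L6_inj (sy_sum hv c)
    rw [map_sum, ← hc]
    exact Finset.sum_congr rfl fun i _ => by rw [map_smul]
  have h2 : Submodule.span ℚ (Set.range (fun i => L6 (v i))) = ⊤ :=
    h1.span_eq_top_of_card_eq_finrank (by simp)
  have h3 : L6 w ∈ Submodule.span ℚ (Set.range (fun i => L6 (v i))) := by
    rw [h2]
    exact Submodule.mem_top
  rw [Submodule.mem_span_range_iff_exists_fun] at h3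
  obtain ⟨c, hc⟩ := h3
  refine ⟨c, ?_⟩
  have h4 : w - ∑ i, c i • v i = 0 := by
    apply L6_inj
    · intro j k
      have := sy_sum hv c j k
      rw [Pi.sub_apply, Pi.sub_apply, hw j k, this]
    · rw [map_sub, map_sum, ← hc, sub_eq_zero]
      exact Finset.sum_congr rfl fun i _ => by rw [map_smul]
  exact sub_eq_zero.1 h4

end sym

section main

variable {H : Fin 6 → Fin 3 → ℚ}

theorem gp_dt (h : GP3 H) {i j k : Fin 6} (h1 : i ≠ j) (h2 : i ≠ k) (h3 : j ≠ k) :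
    dt (H i) (H j) (H k) ≠ 0 := dt_ne (h i j k h1 h2 h3)

theorem gpx (h : GP3 H) : GPX (N := 2) ∅ 2 H := by
  intro κ _ _ x hx _ B hB
  by_contra hc
  rw [not_le] at hc
  obtain ⟨i, j, k, hi, hj, hk, h1, h2, h3⟩ := Finset.two_lt_card_iff.1 hc
  exact hx (zero3 (gp_dt h h1 h2 h3) (hB i hi) (hB j hj) (hB k hk))

theorem card_le {C A J : Finset (Fin 6)} (hAC : Disjoint A C) (hJC : Disjoint J C)
    (hJA : Disjoint J A) : C.card + A.card + J.card = (C ∪ A ∪ J).card := by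
  rw [Finset.card_union_of_disjoint, Finset.card_union_of_disjoint hAC.symm]
  rw [Finset.disjoint_union_left]
  exact ⟨hJC.symm, hJA.symm⟩

theorem gen1 (h : GP3 H) : GenPX (N := 2) ∅ 2 1 H := by
  intro C A J hC hA hJ hAC hJC hJA κ hκ hall
  have h1 := card_le hAC hJC hJA
  have h2 : (C ∪ A ∪ J).card ≤ 6 := by
    have := Finset.card_le_univ (C ∪ A ∪ J)
    simpa using this
  have hC1 : 0 < C.card := hC.card_pos
  obtain ⟨j, hj⟩ : J.Nonempty := by
    rw [← Finset.card_pos, hJ]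
    exact hC1
  obtain ⟨p, hp0, -, -, hz, -⟩ := hall j hj
  have h3 : (Cᶜ).card ≤ 2 := gpx h ℂ (p 0) (hp0 0) (fun F hF => absurd hF (Set.notMem_empty F)) Cᶜ
    (fun i hi => by
      have h4 := hz i (Finset.mem_compl.1 hi)
      unfold nf at h4
      rw [Fin.prod_univ_one] at h4
      exact h4)
  rw [Finset.card_compl, Fintype.card_fin] at h3
  omega

theorem other (k : Fin 2) : ∃ k' : Fin 2, ∀ f : Fin 2 → ℂ, ∏ l, f l = f k * f k' := by
  fin_cases k
  · exact ⟨1, fun f => by rw [Fin.prod_univ_two]; rfl⟩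
  · exact ⟨0, fun f => by rw [Fin.prod_univ_two]; exact mul_comm _ _⟩

theorem key (h : GP3 H) {C : Finset (Fin 6)} {a j j' e i1 i2 : Fin 6} (haj : a ≠ j)
    (haj' : a ≠ j') (hae : a ≠ e) (hjj' : j ≠ j') (hje : j ≠ e) (hj' : j' ∉ C) (he : e ∉ C)
    (hi1 : i1 ∈ C) (hi2 : i2 ∈ C) {κ : Fin 6 → ℚ} {p : Fin 2 → Fin 3 → ℂ} (hp : ∀ k, p k ≠ 0)
    (h1 : ∃ k, ∀ i ∈ insert j ({a} : Finset (Fin 6)), ev (N := 2) (H i) (p k) = 0)
    (hz : ∀ i ∉ C, nf (N := 2) H p i = 0)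
    (hc : ∃ c : ℂ, c ≠ 0 ∧ ∀ i ∈ C, nf (N := 2) H p i = c * (κ i : ℂ)) :
    (dt (H i1) (H a) (H j) * dt (H i1) (H j') (H e)) * κ i2 =
      (dt (H i2) (H a) (H j) * dt (H i2) (H j') (H e)) * κ i1 := by
  obtain ⟨k, hk⟩ := h1
  obtain ⟨k', hk'⟩ := other k
  obtain ⟨c, hc0, hc⟩ := hc
  have zj : ev (N := 2) (H j) (p k) = 0 := hk j (Finset.mem_insert_self _ _)
  have za : ev (N := 2) (H a) (p k) = 0 :=
    hk a (Finset.mem_insert_of_mem (Finset.mem_singleton_self _))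
  have hnf : ∀ i, nf (N := 2) H p i = ev (N := 2) (H i) (p k) * ev (N := 2) (H i) (p k') :=
    fun i => hk' fun l => ev (N := 2) (H i) (p l)
  have z : ∀ i, a ≠ i → j ≠ i → i ∉ C → ev (N := 2) (H i) (p k') = 0 := by
    intro i hai hji hi
    have h2 := hz i hi
    rw [hnf] at h2
    refine (mul_eq_zero.1 h2).resolve_left fun h3 => ?_
    exact hp k (zero3 (gp_dt h haj hai hji) za zj h3)
  have zj' := z j' haj' hjj' hj'
  have ze := z e hae hje he
  have e1 := prop3 za zj (H i1) (H i2)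
  have e2 := prop3 zj' ze (H i1) (H i2)
  have f1 := hc i1 hi1
  have f2 := hc i2 hi2
  rw [hnf] at f1 f2
  rw [eq_ratCast, eq_ratCast] at e1 e2
  have e3 : c * (((dt (H i1) (H a) (H j) * dt (H i1) (H j') (H e)) * κ i2 : ℚ) : ℂ) =
      c * (((dt (H i2) (H a) (H j) * dt (H i2) (H j') (H e)) * κ i1 : ℚ) : ℂ) := by
    push_cast
    have e4 : (dt (H i1) (H a) (H j) : ℂ) * ev (N := 2) (H i2) (p k) *
        ((dt (H i1) (H j') (H e) : ℂ) * ev (N := 2) (H i2) (p k')) =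
        (dt (H i2) (H a) (H j) : ℂ) * ev (N := 2) (H i1) (p k) *
        ((dt (H i2) (H j') (H e) : ℂ) * ev (N := 2) (H i1) (p k')) := by rw [e1, e2]
    linear_combination e4 - ((dt (H i1) (H a) (H j) : ℂ) * (dt (H i1) (H j') (H e) : ℂ)) * f2 +
      ((dt (H i2) (H a) (H j) : ℂ) * (dt (H i2) (H j') (H e) : ℂ)) * f1
  exact_mod_cast mul_left_cancel₀ hc0 e3

/-- a bilinear form -/
def bl (V W : Fin 3 → ℚ) (w : Fin 3 × Fin 3 → ℚ) : ℚ := ∑ jk : Fin 3 × Fin 3, V jk.1 * W jk.2 * w jk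

theorem bl_sq (a b c d h : Fin 3 → ℚ) :
    bl (crs a b) (crs c d) (fun jk => h jk.1 * h jk.2) = dt h a b * dt h c d := by
  unfold bl dt crs
  rw [Fintype.sum_prod_type]
  simp only [Fin.sum_univ_three, Matrix.cons_val_zero, Matrix.cons_val_one, Matrix.cons_val]
  ring

theorem bl_sum (V W : Fin 3 → ℚ) (c : Fin 6 → ℚ) (v : Fin 6 → Fin 3 × Fin 3 → ℚ) :
    bl V W (∑ i, c i • v i) = ∑ i, c i * bl V W (v i) := by
  unfold bl
  simp only [Finset.sum_apply, Pi.smul_apply, smul_eq_mul, Finset.mul_sum]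
  rw [Finset.sum_comm]
  refine Finset.sum_congr rfl fun i _ => Finset.sum_congr rfl fun jk _ => ?_
  ring

theorem dt_add (h h' a b : Fin 3 → ℚ) : dt (h + h') a b = dt h a b + dt h' a b := by
  unfold dt
  simp only [Pi.add_apply]
  ring

theorem dt_self (a b : Fin 3 → ℚ) : dt a a b = 0 := by unfold dt; ring

theorem dt_self' (a b : Fin 3 → ℚ) : dt a b a = 0 := by unfold dt; ring

theorem final (h : GP3 H)
    (hli : LinearIndependent ℚ (fun i => fun jk : Fin 3 × Fin 3 => H i jk.1 * H i jk.2))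
    {a j1 j2 e i1 i2 : Fin 6} (hall : ∀ i, i = a ∨ i = j1 ∨ i = j2 ∨ i = e ∨ i = i1 ∨ i = i2)
    (d1 : a ≠ j1) (d2 : a ≠ j2) (d3 : a ≠ e) (d4 : j1 ≠ j2) (d5 : j1 ≠ e) (d6 : j2 ≠ e)
    (d7 : i1 ≠ a) (d8 : i1 ≠ j1) (d9 : i1 ≠ j2) (d10 : i1 ≠ e)
    {κ : Fin 6 → ℚ} (k1 : κ i1 ≠ 0) (k2 : κ i2 ≠ 0)
    (e1 : (dt (H i1) (H a) (H j1) * dt (H i1) (H j2) (H e)) * κ i2 =
      (dt (H i2) (H a) (H j1) * dt (H i2) (H j2) (H e)) * κ i1)
    (e2 : (dt (H i1) (H a) (H j2) * dt (H i1) (H j1) (H e)) * κ i2 =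
      (dt (H i2) (H a) (H j2) * dt (H i2) (H j1) (H e)) * κ i1) : False := by
  set q1 : (Fin 3 → ℚ) → ℚ := fun x => dt x (H a) (H j1) * dt x (H j2) (H e) with hq1
  set q2 : (Fin 3 → ℚ) → ℚ := fun x => dt x (H a) (H j2) * dt x (H j1) (H e) with hq2
  have hcross : q1 (H i1) * q2 (H i2) = q1 (H i2) * q2 (H i1) := by
    have h3 : (q1 (H i1) * q2 (H i2) - q1 (H i2) * q2 (H i1)) * (κ i1 * κ i2) = 0 := by
      have e1' : q1 (H i1) * κ i2 = q1 (H i2) * κ i1 := e1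
      have e2' : q2 (H i1) * κ i2 = q2 (H i2) * κ i1 := e2
      linear_combination (q2 (H i2) * κ i1) * e1' - (q1 (H i2) * κ i1) * e2'
    rcases mul_eq_zero.1 h3 with h4 | h4
    · exact sub_eq_zero.1 h4
    · exact absurd h4 (mul_ne_zero k1 k2)
  have hzero : ∀ i, q2 (H i1) * q1 (H i) = q1 (H i1) * q2 (H i) := by
    intro i
    rcases hall i with rfl | rfl | rfl | rfl | rfl | rfl
    · simp only [hq1, hq2, dt_self]; ring
    · simp only [hq1, hq2, dt_self, dt_self']; ring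
    · simp only [hq1, hq2, dt_self, dt_self']; ring
    · simp only [hq1, hq2, dt_self']; ring
    · ring
    · linear_combination -hcross
  have hspan := span6 (v := fun i => fun jk : Fin 3 × Fin 3 => H i jk.1 * H i jk.2)
    (fun i j k => mul_comm _ _) hli
    (w := fun jk => (H a + H j1) jk.1 * (H a + H j1) jk.2) (fun j k => mul_comm _ _)
  obtain ⟨c, hc⟩ := hspan
  have f1 : q1 (H a + H j1) = ∑ i, c i * q1 (H i) := by
    have h3 := bl_sum (crs (H a) (H j1)) (crs (H j2) (H e)) c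
      (fun i => fun jk : Fin 3 × Fin 3 => H i jk.1 * H i jk.2)
    rw [← hc, bl_sq] at h3
    rw [hq1]
    show dt _ _ _ * dt _ _ _ = _
    rw [h3]
    exact Finset.sum_congr rfl fun i _ => by rw [bl_sq]
  have f2 : q2 (H a + H j1) = ∑ i, c i * q2 (H i) := by
    have h3 := bl_sum (crs (H a) (H j2)) (crs (H j1) (H e)) c
      (fun i => fun jk : Fin 3 × Fin 3 => H i jk.1 * H i jk.2)
    rw [← hc, bl_sq] at h3
    rw [hq2]
    show dt _ _ _ * dt _ _ _ = _
    rw [h3]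
    exact Finset.sum_congr rfl fun i _ => by rw [bl_sq]
  have f3 : q2 (H i1) * q1 (H a + H j1) = q1 (H i1) * q2 (H a + H j1) := by
    rw [f1, f2, Finset.mul_sum, Finset.mul_sum]
    refine Finset.sum_congr rfl fun i _ => ?_
    linear_combination (c i) * hzero i
  have g1 : q1 (H a + H j1) = 0 := by
    show dt _ _ _ * dt _ _ _ = _
    rw [dt_add (H a) (H j1) (H a) (H j1), dt_self, dt_self', add_zero, zero_mul]
  have g2 : q2 (H a + H j1) ≠ 0 := by
    show dt _ _ _ * dt _ _ _ ≠ _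
    rw [dt_add, dt_add, dt_self, zero_add, dt_self, add_zero]
    exact mul_ne_zero (gp_dt h d1.symm d4 d2) (gp_dt h d1 d3 d5)
  have g3 : q1 (H i1) ≠ 0 := mul_ne_zero (gp_dt h d7 d8 d1) (gp_dt h d9 d10 d6)
  rw [g1, mul_zero] at f3
  exact mul_ne_zero g3 g2 f3.symm

theorem gen2 (h : GP3 H)
    (hli : LinearIndependent ℚ (fun i => fun jk : Fin 3 × Fin 3 => H i jk.1 * H i jk.2)) :
    GenPX (N := 2) ∅ 2 2 H := by
  classical
  intro C A J hC hA hJ hAC hJC hJA κ hκ hall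
  have h1 := card_le hAC hJC hJA
  have h2 : (C ∪ A ∪ J).card ≤ 6 := by
    have := Finset.card_le_univ (C ∪ A ∪ J)
    simpa using this
  have hC1 : 0 < C.card := hC.card_pos
  have hC2 : 2 ≤ C.card := by
    obtain ⟨j, hj⟩ : J.Nonempty := by
      rw [← Finset.card_pos, hJ]
      exact hC1
    obtain ⟨p, hp0, -, -, hz, -⟩ := hall j hj
    have hB : ∀ k, (Finset.univ.filter fun i => ev (N := 2) (H i) (p k) = 0).card ≤ 2 := fun k =>
      gpx h ℂ (p k) (hp0 k) (fun F hF => absurd hF (Set.notMem_empty F)) _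
        (fun i hi => (Finset.mem_filter.1 hi).2)
    have hsub : Cᶜ ⊆ (Finset.univ.filter fun i => ev (N := 2) (H i) (p 0) = 0) ∪
        (Finset.univ.filter fun i => ev (N := 2) (H i) (p 1) = 0) := by
      intro i hi
      have h4 := hz i (Finset.mem_compl.1 hi)
      unfold nf at h4
      rw [Fin.prod_univ_two] at h4
      rw [Finset.mem_union, Finset.mem_filter, Finset.mem_filter]
      rcases mul_eq_zero.1 h4 with h5 | h5
      · exact Or.inl ⟨Finset.mem_univ _, h5⟩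
      · exact Or.inr ⟨Finset.mem_univ _, h5⟩
    have h5 := (Finset.card_le_card hsub).trans (Finset.card_union_le _ _)
    rw [Finset.card_compl, Fintype.card_fin] at h5
    have h6 := hB 0
    have h7 := hB 1
    omega
  have hCc : C.card = 2 := by omega
  have hJc : J.card = 2 := by omega
  have hAc : A.card = 1 := by omega
  obtain ⟨a, rfl⟩ := Finset.card_eq_one.1 hAc
  obtain ⟨i1, i2, hi12, rfl⟩ := Finset.card_eq_two.1 hCc
  obtain ⟨j1, j2, hj12, rfl⟩ := Finset.card_eq_two.1 hJc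
  have hE : (({i1, i2} ∪ {a} ∪ {j1, j2} : Finset (Fin 6))ᶜ).card = 1 := by
    rw [Finset.card_compl, ← h1, hCc, hJc, hAc, Fintype.card_fin]
  obtain ⟨e, he⟩ := Finset.card_eq_one.1 hE
  have heall : ∀ i, i ∉ ({i1, i2} ∪ {a} ∪ {j1, j2} : Finset (Fin 6)) ↔ i = e := by
    intro i
    rw [← Finset.mem_compl, he, Finset.mem_singleton]
  have he' := (heall e).2 rfl
  simp only [Finset.mem_union, Finset.mem_insert, Finset.mem_singleton, not_or] at he'
  obtain ⟨⟨⟨n1, n2⟩, n3⟩, n4, n5⟩ := he'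
  rw [Finset.disjoint_left] at hAC hJC hJA
  have m1 : a ≠ i1 := fun h => hAC (Finset.mem_singleton_self a) (by simp [h])
  have m2 : a ≠ i2 := fun h => hAC (Finset.mem_singleton_self a) (by simp [h])
  have m3 : j1 ≠ i1 := fun h => hJC (a := j1) (by simp) (by simp [h])
  have m4 : j1 ≠ i2 := fun h => hJC (a := j1) (by simp) (by simp [h])
  have m5 : j2 ≠ i1 := fun h => hJC (a := j2) (by simp) (by simp [h])
  have m6 : j2 ≠ i2 := fun h => hJC (a := j2) (by simp) (by simp [h])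
  have m7 : j1 ≠ a := fun h => hJA (a := j1) (by simp) (by simp [h])
  have m8 : j2 ≠ a := fun h => hJA (a := j2) (by simp) (by simp [h])
  have hcov : ∀ i, i = a ∨ i = j1 ∨ i = j2 ∨ i = e ∨ i = i1 ∨ i = i2 := by
    intro i
    by_cases hi : i ∈ ({i1, i2} ∪ {a} ∪ {j1, j2} : Finset (Fin 6))
    · simp only [Finset.mem_union, Finset.mem_insert, Finset.mem_singleton] at hi
      tauto
    · have := (heall i).1 hi
      tauto
  obtain ⟨p, hp0, -, hp1, hp2, hp3⟩ := hall j1 (by simp)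
  obtain ⟨p', hp0', -, hp1', hp2', hp3'⟩ := hall j2 (by simp)
  have e1 := key h (C := {i1, i2}) (a := a) (j := j1) (j' := j2) (e := e) (i1 := i1) (i2 := i2)
    m7.symm m8.symm (Ne.symm n3) hj12 (Ne.symm n4) (by simp [m5, m6]) (by simp [n1, n2]) (by simp)
    (by simp) hp0 hp1 hp2 hp3
  have e2 := key h (C := {i1, i2}) (a := a) (j := j2) (j' := j1) (e := e) (i1 := i1) (i2 := i2)
    m8.symm m7.symm (Ne.symm n3) hj12.symm (Ne.symm n5) (by simp [m3, m4]) (by simp [n1, n2])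
    (by simp) (by simp) hp0' hp1' hp2' hp3'
  exact final h hli hcov m7.symm m8.symm (Ne.symm n3) hj12 (Ne.symm n4) (Ne.symm n5) m1.symm
    m3.symm m5.symm (Ne.symm n1) (hκ i1 (by simp)) (hκ i2 (by simp)) e1 e2

end main

/-- Job GENS. -/
theorem gens : GensStmt := fun H h hli => ⟨gpx h, gen1 h, gen2 h hli⟩

end Pool.Agent.Y734.I.GENS
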